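import Mathlib

/-! MP_cd9e74_lc: straight-line programs with additions, subtractions and products, and addition
chains. -/

set_option autoImplicit false

open Polynomial

namespace Pool.Agent.MP_cd9e74_lc

/-- `IsProgram L p`: `L` lists, last one first, the polynomials of a program that starts with `1`
and `x`, every further member being the sum, the difference or the product of two earlier ones, and
`p` is the number of product steps. -/
inductive IsProgram {R : Type*} [CommRing R] : List R[X] → ℕ → Prop
  | start : IsProgram [X, 1] 0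
  | add {L : List R[X]} {p : ℕ} {f g : R[X]} (h : IsProgram L p) (hf : f ∈ L) (hg : g ∈ L) :
      IsProgram ((f + g) :: L) p
  | sub {L : List R[X]} {p : ℕ} {f g : R[X]} (h : IsProgram L p) (hf : f ∈ L) (hg : g ∈ L) :
      IsProgram ((f - g) :: L) p
  | mul {L : List R[X]} {p : ℕ} {f g : R[X]} (h : IsProgram L p) (hf : f ∈ L) (hg : g ∈ L) :
      IsProgram ((f * g) :: L) (p + 1)

/-- `IsAdditionChain a r d`: `a 0, ..., a r` is an addition chain for `d` (of length `r`). -/
def IsAdditionChain (a : ℕ → ℕ) (r d : ℕ) : Prop :=
  a 0 = 1 ∧ a r = d ∧ (∀ k < r, a k < a (k + 1)) ∧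
    ∀ k, 1 ≤ k → k ≤ r → ∃ i < k, ∃ j < k, a k = a i + a j

/-- the least length of an addition chain for `d` -/
noncomputable def l2 (d : ℕ) : ℕ := sInf {r | ∃ a : ℕ → ℕ, IsAdditionChain a r d}

end Pool.Agent.MP_cd9e74_lc
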