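import Mathlib

/-!
# The gap lemma for addition chains

The members of an addition chain form a finite set `S` of positive integers with `1 ∈ S` in which
every member other than `1` is a sum of two members.  If `n = N * 2 ^ e + m` with `0 < m` far below
`2 ^ e` has a chain with few small steps then dropping the small summand of every addition `a + b`
with `a / b` huge gives a shorter chain for `N * 2 ^ e`.
-/

set_option autoImplicit false

namespace Pool.Agent.MP_cd9e74_lc.Gap

open Finset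

/-- `S` is the set of the members of an addition chain. -/
def IsChain (S : Finset ℕ) : Prop :=
  0 ∉ S ∧ 1 ∈ S ∧ ∀ s ∈ S, s ≠ 1 → ∃ a ∈ S, ∃ b ∈ S, s = a + b

theorem IsChain.restrict {S : Finset ℕ} (hS : IsChain S) {n : ℕ} (hn : n ∈ S) :
    IsChain (S.filter (fun s => s ≤ n)) := by
  obtain ⟨h0, h1, h2⟩ := hS
  refine ⟨fun h => h0 (mem_filter.1 h).1, ?_, ?_⟩
  · refine mem_filter.2 ⟨h1, ?_⟩
    rcases Nat.eq_zero_or_pos n with rfl | h
    · exact absurd hn h0
    · exact h
  · intro s hs hs1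
    obtain ⟨a, ha, b, hb, hab⟩ := h2 s (mem_filter.1 hs).1 hs1
    have hsn := (mem_filter.1 hs).2
    exact ⟨a, mem_filter.2 ⟨ha, by omega⟩, b, mem_filter.2 ⟨hb, by omega⟩, hab⟩

/-- the number of members of `S` in `(1, s]` that are not doublings of members of `S` -/
noncomputable def nd (S : Finset ℕ) (s : ℕ) : ℕ := by
  classical exact (S.filter (fun u => 1 < u ∧ u ≤ s ∧ ¬ ∃ a ∈ S, u = 2 * a)).card

/-- the number of members of `S` in `(1, s]` that are doublings of members of `S` -/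
noncomputable def db (S : Finset ℕ) (s : ℕ) : ℕ := by
  classical exact (S.filter (fun u => 1 < u ∧ u ≤ s ∧ ∃ a ∈ S, u = 2 * a)).card

theorem nd_mono (S : Finset ℕ) {a s : ℕ} (h : a ≤ s) : nd S a ≤ nd S s := by
  classical
  unfold nd
  apply card_le_card
  intro u hu
  rw [mem_filter] at hu ⊢
  exact ⟨hu.1, hu.2.1, by omega, hu.2.2.2⟩

theorem db_mono (S : Finset ℕ) {a s : ℕ} (h : a ≤ s) : db S a ≤ db S s := by
  classical
  unfold db
  apply card_le_card
  intro u hu
  rw [mem_filter] at hu ⊢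
  exact ⟨hu.1, hu.2.1, by omega, hu.2.2.2⟩

theorem nd_succ (S : Finset ℕ) {a s : ℕ} (h : a < s) (hs : s ∈ S) (h1 : 1 < s)
    (hd : ¬ ∃ a ∈ S, s = 2 * a) : nd S a + 1 ≤ nd S s := by
  classical
  unfold nd
  apply Nat.succ_le_of_lt
  apply card_lt_card
  rw [ssubset_iff_of_subset]
  · refine ⟨s, mem_filter.2 ⟨hs, h1, le_refl _, hd⟩, fun h' => ?_⟩
    have := (mem_filter.1 h').2.2.1
    omega
  · intro u hu
    rw [mem_filter] at hu ⊢
    exact ⟨hu.1, hu.2.1, by omega, hu.2.2.2⟩

theorem db_succ (S : Finset ℕ) {a s : ℕ} (h : a < s) (hs : s ∈ S) (h1 : 1 < s)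
    (hd : ∃ a ∈ S, s = 2 * a) : db S a + 1 ≤ db S s := by
  classical
  unfold db
  apply Nat.succ_le_of_lt
  apply card_lt_card
  rw [ssubset_iff_of_subset]
  · refine ⟨s, mem_filter.2 ⟨hs, h1, le_refl _, hd⟩, fun h' => ?_⟩
    have := (mem_filter.1 h').2.2.1
    omega
  · intro u hu
    rw [mem_filter] at hu ⊢
    exact ⟨hu.1, hu.2.1, by omega, hu.2.2.2⟩

theorem db_add_nd (S : Finset ℕ) (h1 : 1 ∈ S) (s : ℕ) : db S s + nd S s + 1 ≤ S.card := by
  classical
  unfold nd db
  rw [← card_union_of_disjoint]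
  · apply Nat.succ_le_of_lt
    apply card_lt_card
    rw [ssubset_iff_of_subset]
    · refine ⟨1, h1, fun h => ?_⟩
      rw [mem_union, mem_filter, mem_filter] at h
      rcases h with h | h
      · exact absurd h.2.1 (lt_irrefl _)
      · exact absurd h.2.1 (lt_irrefl _)
    · intro u hu
      rw [mem_union, mem_filter, mem_filter] at hu
      rcases hu with h | h
      · exact h.1
      · exact h.1
  · rw [disjoint_left]
    intro u hu hu'
    exact (mem_filter.1 hu').2.2.2 (mem_filter.1 hu).2.2.2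

/-- the weight `2 ^ db * (5 / 3) ^ nd` -/
noncomputable def wt (S : Finset ℕ) (s : ℕ) : ℝ := 2 ^ db S s * (5 / 3) ^ nd S s

theorem wt_pos (S : Finset ℕ) (s : ℕ) : 0 < wt S s := by unfold wt; positivity

theorem wt_dbl (S : Finset ℕ) {a s : ℕ} (h : a < s) (hs : s ∈ S) (h1 : 1 < s)
    (hd : ∃ a ∈ S, s = 2 * a) : 2 * wt S a ≤ wt S s := by
  have e1 := db_succ S h hs h1 hd
  have e2 := nd_mono S h.le
  unfold wt
  calc 2 * (2 ^ db S a * (5 / 3 : ℝ) ^ nd S a) = 2 ^ (db S a + 1) * (5 / 3 : ℝ) ^ nd S a := by ring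
    _ ≤ 2 ^ db S s * (5 / 3 : ℝ) ^ nd S s := by
      apply mul_le_mul
      · exact pow_le_pow_right₀ (by norm_num) e1
      · exact pow_le_pow_right₀ (by norm_num) e2
      · positivity
      · positivity

theorem wt_ndl (S : Finset ℕ) {a s : ℕ} (h : a < s) (hs : s ∈ S) (h1 : 1 < s)
    (hd : ¬ ∃ a ∈ S, s = 2 * a) : 5 / 3 * wt S a ≤ wt S s := by
  have e1 := nd_succ S h hs h1 hd
  have e2 := db_mono S h.le
  unfold wt
  calc 5 / 3 * (2 ^ db S a * (5 / 3 : ℝ) ^ nd S a) = 2 ^ (db S a) * (5 / 3 : ℝ) ^ (nd S a + 1) := by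
        ring
    _ ≤ 2 ^ db S s * (5 / 3 : ℝ) ^ nd S s := by
      apply mul_le_mul
      · exact pow_le_pow_right₀ (by norm_num) e2
      · exact pow_le_pow_right₀ (by norm_num) e1
      · positivity
      · positivity

theorem wt_step (S : Finset ℕ) {a s : ℕ} (h : a < s) (hs : s ∈ S) (h1 : 1 < s) :
    5 / 3 * wt S a ≤ wt S s := by
  by_cases hd : ∃ a ∈ S, s = 2 * a
  · have := wt_dbl S h hs h1 hd
    have := wt_pos S a
    linarith
  · exact wt_ndl S h hs h1 hd

theorem le_wt {S : Finset ℕ} (hS : IsChain S) : ∀ s : ℕ, s ∈ S → (s : ℝ) ≤ wt S s := by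
  obtain ⟨h0, h1, h2⟩ := hS
  have hpos : ∀ a ∈ S, 1 ≤ a := by
    intro a ha
    rcases Nat.eq_zero_or_pos a with rfl | h
    · exact absurd ha h0
    · exact h
  intro s
  induction s using Nat.strong_induction_on with
  | _ s ih =>
    intro hs
    by_cases hs1 : s = 1
    · subst hs1
      unfold wt
      have h3 : (1 : ℝ) ≤ 2 ^ db S 1 := one_le_pow₀ (by norm_num)
      have h4 : (1 : ℝ) ≤ (5 / 3) ^ nd S 1 := one_le_pow₀ (by norm_num)
      push_cast
      nlinarith
    · have hs2 : 1 < s := by have := hpos s hs; omega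
      by_cases hd : ∃ a ∈ S, s = 2 * a
      · obtain ⟨a, ha, hsa⟩ := hd
        have ha1 := hpos a ha
        have hlt : a < s := by omega
        have e1 := ih a hlt ha
        have e2 := wt_dbl S hlt hs hs2 ⟨a, ha, hsa⟩
        rw [hsa] at e2 ⊢
        push_cast
        linarith
      · obtain ⟨a, ha, b, hb, hab⟩ := h2 s hs hs1
        have ha1 := hpos a ha
        have hb1 := hpos b hb
        have key : ∀ a b : ℕ, a ∈ S → b ∈ S → s = a + b → b < a → (s : ℝ) ≤ wt S s := by
          intro a b ha hb hab hlt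
          have ha1 := hpos a ha
          have hb1 := hpos b hb
          have e1 := ih a (by omega) ha
          have e2 := ih b (by omega) hb
          have e3 := wt_step S hlt ha (by omega)
          have e4 := wt_ndl S (show a < s by omega) hs hs2 hd
          have e5 : (s : ℝ) = a + b := by rw [hab]; push_cast; ring
          have e6 := wt_pos S a
          have e7 := wt_pos S b
          rw [e5]
          linarith
        rcases lt_trichotomy a b with h | h | h
        · exact key b a hb ha (by omega) h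
        · exact absurd ⟨a, ha, by omega⟩ hd
        · exact key a b ha hb hab h

/-- the number of nondoublings is at most four times the excess -/
theorem nd_le {S : Finset ℕ} (hS : IsChain S) {n e c : ℕ} (hn : n ∈ S) (he : 2 ^ e ≤ n)
    (hc : S.card ≤ e + c + 1) : nd S n ≤ 4 * c := by
  by_contra hcon
  push Not at hcon
  have h1 := le_wt hS n hn
  have h2 := db_add_nd S hS.2.1 n
  have h3 : (2 : ℝ) ^ e ≤ n := by exact_mod_cast he
  have h4 : db S n + nd S n ≤ e + c := by omega
  have h5 : wt S n * (6 / 5) ^ nd S n = 2 ^ (db S n + nd S n) := by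
    unfold wt
    rw [pow_add, mul_assoc, ← mul_pow]
    norm_num
  have h6 : (2 : ℝ) ^ (db S n + nd S n) ≤ 2 ^ (e + c) := pow_le_pow_right₀ (by norm_num) h4
  have h7 : (6 / 5 : ℝ) ^ (4 * c + 1) ≤ (6 / 5) ^ nd S n := pow_le_pow_right₀ (by norm_num) hcon
  have h8 : (2 : ℝ) ^ c < (6 / 5 : ℝ) ^ (4 * c + 1) := by
    rw [pow_succ, pow_mul]
    have h9 : (2 : ℝ) ^ c ≤ ((6 / 5) ^ 4) ^ c := pow_le_pow_left₀ (by norm_num) (by norm_num) c
    have h10 : (0 : ℝ) < ((6 / 5) ^ 4) ^ c := by positivity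
    nlinarith
  have h11 : (2 : ℝ) ^ e * (6 / 5) ^ nd S n ≤ 2 ^ (e + c) := by
    calc (2 : ℝ) ^ e * (6 / 5) ^ nd S n ≤ wt S n * (6 / 5) ^ nd S n := by
          apply mul_le_mul_of_nonneg_right (h3.trans h1) (by positivity)
      _ = 2 ^ (db S n + nd S n) := h5
      _ ≤ _ := h6
  rw [pow_add] at h11
  have h12 : (0 : ℝ) < 2 ^ e := by positivity
  have h13 := le_of_mul_le_mul_left h11 h12
  linarith

/-! ### Leading parts -/

/-- the leading part: `A s` and `B s` are the chosen summands, `mg s` says that the second one is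
dropped -/
noncomputable def lead (A B : ℕ → ℕ) (mg : ℕ → Prop) (s : ℕ) : ℕ := by
  classical exact
    if _h : s ≠ 1 ∧ A s < s ∧ B s < s then
      (if mg s then lead A B mg (A s) else lead A B mg (A s) + lead A B mg (B s))
    else 1
termination_by s
decreasing_by all_goals omega

theorem lead_one (A B : ℕ → ℕ) (mg : ℕ → Prop) : lead A B mg 1 = 1 := by
  rw [lead]
  simp

theorem lead_mg (A B : ℕ → ℕ) (mg : ℕ → Prop) {s : ℕ} (h1 : s ≠ 1) (h2 : A s < s) (h3 : B s < s)
    (h : mg s) : lead A B mg s = lead A B mg (A s) := by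
  rw [lead]
  rw [dif_pos ⟨h1, h2, h3⟩, if_pos h]

theorem lead_not (A B : ℕ → ℕ) (mg : ℕ → Prop) {s : ℕ} (h1 : s ≠ 1) (h2 : A s < s) (h3 : B s < s)
    (h : ¬ mg s) : lead A B mg s = lead A B mg (A s) + lead A B mg (B s) := by
  rw [lead]
  rw [dif_pos ⟨h1, h2, h3⟩, if_neg h]

/-- the ratio windows -/
def win (N b : ℕ) : ℕ → ℕ
  | 0 => 1
  | q + 1 => 2 * b * (4 * win N b q) ^ b + b * (N + 1) + 2 * b + 2 + win N b q

theorem win_mono_succ (N b q : ℕ) : win N b q < win N b (q + 1) := by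
  simp only [win]
  omega

theorem win_mono (N b : ℕ) : Monotone (win N b) :=
  monotone_nat_of_le_succ fun q => (win_mono_succ N b q).le

theorem one_le_win (N b q : ℕ) : 1 ≤ win N b q := by
  have := win_mono N b (Nat.zero_le q)
  simpa [win] using this

/-- choice of the summands -/
theorem exists_split {S : Finset ℕ} (hS : IsChain S) :
    ∃ A B : ℕ → ℕ, ∀ s ∈ S, s ≠ 1 → A s ∈ S ∧ B s ∈ S ∧ s = A s + B s ∧ B s ≤ A s ∧
      ((∃ a ∈ S, s = 2 * a) → A s = B s) := by
  classical
  have h : ∀ s : ℕ, ∃ a b : ℕ, s ∈ S → s ≠ 1 → a ∈ S ∧ b ∈ S ∧ s = a + b ∧ b ≤ a ∧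
      ((∃ a ∈ S, s = 2 * a) → a = b) := by
    intro s
    by_cases hs : s ∈ S ∧ s ≠ 1
    · by_cases hd : ∃ a ∈ S, s = 2 * a
      · obtain ⟨a, ha, hsa⟩ := hd
        exact ⟨a, a, fun _ _ => ⟨ha, ha, by omega, le_refl _, fun _ => rfl⟩⟩
      · obtain ⟨a, ha, b, hb, hab⟩ := hS.2.2 s hs.1 hs.2
        rcases le_total a b with h | h
        · exact ⟨b, a, fun _ _ => ⟨hb, ha, by omega, h, fun h' => absurd h' hd⟩⟩
        · exact ⟨a, b, fun _ _ => ⟨ha, hb, hab, h, fun h' => absurd h' hd⟩⟩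
    · exact ⟨0, 0, fun h1 h2 => absurd ⟨h1, h2⟩ hs⟩
  choose A B hAB using h
  exact ⟨A, B, fun s hs h1 => hAB s hs h1⟩

/-- some window contains no ratio -/
theorem exists_window (N b : ℕ) (A B : ℕ → ℕ) (nb : Finset ℕ)
    (hnb : nb.card ≤ b) :
    ∃ q ≤ b, ∀ s ∈ nb, A s < win N b q * B s ∨ win N b (q + 1) * B s ≤ A s := by
  classical
  by_contra hcon
  push Not at hcon
  have hcov : range (b + 1) ⊆ nb.biUnion (fun s =>
      (range (b + 1)).filter (fun q => win N b q * B s ≤ A s ∧ A s < win N b (q + 1) * B s)) := by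
    intro q hq
    obtain ⟨s, hs, h1, h2⟩ := hcon q (by have := mem_range.1 hq; omega)
    exact mem_biUnion.2 ⟨s, hs, mem_filter.2 ⟨hq, h1, h2⟩⟩
  have hone : ∀ s ∈ nb, ((range (b + 1)).filter
      (fun q => win N b q * B s ≤ A s ∧ A s < win N b (q + 1) * B s)).card ≤ 1 := by
    intro s hs
    rw [card_le_one]
    have key : ∀ x y : ℕ, win N b x * B s ≤ A s → A s < win N b (x + 1) * B s →
        win N b y * B s ≤ A s → A s < win N b (y + 1) * B s → ¬ x < y := by
      intro x y h1 h2 h3 h4 hxy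
      have h5 := win_mono N b (show x + 1 ≤ y by omega)
      have h6 := Nat.mul_le_mul_right (B s) h5
      omega
    intro x hx y hy
    have hx' := (mem_filter.1 hx).2
    have hy' := (mem_filter.1 hy).2
    rcases lt_trichotomy x y with h | h | h
    · exact absurd h (key x y hx'.1 hx'.2 hy'.1 hy'.2)
    · exact h
    · exact absurd h (key y x hy'.1 hy'.2 hx'.1 hx'.2)
  have h1 := card_le_card hcov
  have h2 := card_biUnion_le_card_mul nb _ 1 hone
  rw [card_range] at h1
  omega

theorem eq_floor {D x n : ℕ} (hD : D ∣ x) (h1 : x ≤ n) (h2 : n < x + D) : x = D * (n / D) := by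
  obtain ⟨k, rfl⟩ := hD
  have hD0 : 0 < D := by omega
  have : n / D = k := by
    apply Nat.div_eq_of_lt_le
    · rw [mul_comm]; exact h1
    · rw [Nat.succ_mul, mul_comm k D]; exact h2
  rw [this]

/-- **Gap lemma.** -/
theorem gap (N c : ℕ) (hN : 1 ≤ N) : ∃ G : ℕ, ∀ e m : ℕ, 0 < m → m * 2 ^ G ≤ 2 ^ e →
    ∀ S : Finset ℕ, IsChain S → N * 2 ^ e + m ∈ S → S.card ≤ e + c + 1 →
      ∃ S' : Finset ℕ, IsChain S' ∧ N * 2 ^ e ∈ S' ∧ S'.card + 1 ≤ S.card := by
  classical
  set b : ℕ := 4 * c with hb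
  obtain ⟨G, hG⟩ : ∃ G : ℕ, 2 * (4 * win N b (b + 1)) ^ b < 2 ^ G :=
    ⟨2 * (4 * win N b (b + 1)) ^ b, Nat.lt_two_pow_self⟩
  refine ⟨G, ?_⟩
  intro e m hm hmG S0 hS0 hn0 hcard0
  set n : ℕ := N * 2 ^ e + m with hn
  set S : Finset ℕ := S0.filter (fun s => s ≤ n) with hSdef
  have hS : IsChain S := hS0.restrict hn0
  have hnS : n ∈ S := mem_filter.2 ⟨hn0, le_refl _⟩
  have hcard' : S.card ≤ S0.card := card_filter_le _ _
  have hcard : S.card ≤ e + c + 1 := hcard'.trans hcard0
  have hle : ∀ s ∈ S, s ≤ n := fun s hs => (mem_filter.1 hs).2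
  suffices h : ∃ S' : Finset ℕ, IsChain S' ∧ N * 2 ^ e ∈ S' ∧ S'.card + 1 ≤ S.card by
    obtain ⟨S', h1, h2, h3⟩ := h
    exact ⟨S', h1, h2, h3.trans hcard'⟩
  have hen : 2 ^ e ≤ n := by
    have : 1 * 2 ^ e ≤ N * 2 ^ e := Nat.mul_le_mul_right _ hN
    omega
  have hpos : ∀ a ∈ S, 1 ≤ a := by
    intro a ha
    rcases Nat.eq_zero_or_pos a with rfl | h
    · exact absurd ha hS.1
    · exact h
  have hnd : nd S n ≤ b := nd_le hS hnS hen hcard
  have hnds : ∀ s ∈ S, nd S s ≤ b := fun s hs => (nd_mono S (hle s hs)).trans hnd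
  obtain ⟨A, B, hAB⟩ := exists_split hS
  obtain ⟨q, hq, hwin⟩ := exists_window N b A B
    (S.filter (fun u => 1 < u ∧ u ≤ n ∧ ¬ ∃ a ∈ S, u = 2 * a))
    (by unfold nd at hnd; exact hnd)
  set w : ℕ := win N b q with hw
  set w' : ℕ := win N b (q + 1) with hw'
  have hw1 : 1 ≤ w := one_le_win N b q
  have hw'eq : w' = 2 * b * (4 * w) ^ b + b * (N + 1) + 2 * b + 2 + w := by
    rw [hw', hw]
    simp only [win]
  clear_value w'
  -- the merges
  set mg : ℕ → Prop := fun s => w' * B s ≤ A s with hmg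
  have hAlt : ∀ s ∈ S, s ≠ 1 → A s < s ∧ B s < s := by
    intro s hs h1
    obtain ⟨h2, h3, h4, h5, h6⟩ := hAB s hs h1
    have := hpos _ h2
    have := hpos _ h3
    omega
  -- every member is a doubling, a merge or comparable
  have hcase : ∀ s ∈ S, s ≠ 1 → (A s = B s ∧ ¬ mg s ∧ ∃ a ∈ S, s = 2 * a) ∨
      ((¬ ∃ a ∈ S, s = 2 * a) ∧ mg s) ∨
      ((¬ ∃ a ∈ S, s = 2 * a) ∧ ¬ mg s ∧ A s < w * B s) := by
    intro s hs h1
    obtain ⟨h2, h3, h4, h5, h6⟩ := hAB s hs h1
    have hB := hpos _ h3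
    by_cases hd : ∃ a ∈ S, s = 2 * a
    · left
      refine ⟨h6 hd, ?_, hd⟩
      rw [hmg]
      simp only [not_le]
      rw [h6 hd]
      have : 2 * B s ≤ w' * B s := Nat.mul_le_mul_right _ (by omega)
      omega
    · right
      by_cases hm : mg s
      · exact Or.inl ⟨hd, hm⟩
      · right
        refine ⟨hd, hm, ?_⟩
        have := hpos s hs
        rcases hwin s (mem_filter.2 ⟨hs, by omega, hle s hs, hd⟩) with h | h
        · exact h
        · exact absurd h hm
  set L : ℕ → ℕ := lead A B mg with hL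
  have hL1 : L 1 = 1 := lead_one A B mg
  have hLm : ∀ s ∈ S, s ≠ 1 → mg s → L s = L (A s) := fun s hs h1 h =>
    lead_mg A B mg h1 (hAlt s hs h1).1 (hAlt s hs h1).2 h
  have hLn : ∀ s ∈ S, s ≠ 1 → ¬ mg s → L s = L (A s) + L (B s) := fun s hs h1 h =>
    lead_not A B mg h1 (hAlt s hs h1).1 (hAlt s hs h1).2 h
  clear_value L
  -- bounds
  have P0 : ∀ s : ℕ, s ∈ S → 1 ≤ L s ∧ L s ≤ s := by
    intro s
    induction s using Nat.strong_induction_on with
    | _ s ih =>
      intro hs
      by_cases h1 : s = 1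
      · subst h1; omega
      · obtain ⟨h2, h3, h4, h5, h6⟩ := hAB s hs h1
        obtain ⟨h7, h8⟩ := hAlt s hs h1
        have e1 := ih _ h7 h2
        have e2 := ih _ h8 h3
        by_cases hm : mg s
        · rw [hLm s hs h1 hm]; omega
        · rw [hLn s hs h1 hm]; omega
  have P1 : ∀ s : ℕ, s ∈ S → s * w' ≤ L s * w' + nd S s * s := by
    intro s
    induction s using Nat.strong_induction_on with
    | _ s ih =>
      intro hs
      by_cases h1 : s = 1
      · subst h1; rw [hL1]; omega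
      · obtain ⟨h2, h3, h4, h5, h6⟩ := hAB s hs h1
        obtain ⟨h7, h8⟩ := hAlt s hs h1
        have e1 := ih _ h7 h2
        have e2 := ih _ h8 h3
        by_cases hm : mg s
        · have hd : ¬ ∃ a ∈ S, s = 2 * a := by
            rcases hcase s hs h1 with h | h | h
            · exact absurd hm h.2.1
            · exact h.1
            · exact absurd hm h.2.1
          have e3 := nd_succ S h7 hs (by have := hpos s hs; omega) hd
          have e4 : w' * B s ≤ A s := hm
          have e5 : (nd S (A s) + 1) * A s ≤ nd S s * s := Nat.mul_le_mul e3 h7.le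
          rw [hLm s hs h1 hm]
          have e6 : s * w' = A s * w' + w' * B s := by
            conv_lhs => rw [h4]
            ring
          rw [e6]
          have e7 : (nd S (A s) + 1) * A s = nd S (A s) * A s + A s := by ring
          omega
        · rw [hLn s hs h1 hm]
          have e3 := nd_mono S h7.le
          have e4 := nd_mono S h8.le
          have e5 : nd S (A s) * A s ≤ nd S s * A s := Nat.mul_le_mul_right _ e3
          have e6 : nd S (B s) * B s ≤ nd S s * B s := Nat.mul_le_mul_right _ e4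
          have e7 : nd S s * s = nd S s * A s + nd S s * B s := by
            rw [← mul_add, ← h4]
          have e8 : s * w' = A s * w' + B s * w' := by
            rw [← add_mul, ← h4]
          have e9 : (L (A s) + L (B s)) * w' = L (A s) * w' + L (B s) * w' := by ring
          omega
  have P1' : ∀ s ∈ S, s ≤ 2 * L s := by
    intro s hs
    have e1 := P1 s hs
    have e2 : nd S s * s ≤ b * s := Nat.mul_le_mul_right _ (hnds s hs)
    have e3 : 2 * b * s ≤ w' * s := Nat.mul_le_mul_right _ (by omega)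
    have e4 : s * w' ≤ 2 * L s * w' := by
      have e5 : 2 * L s * w' = 2 * (L s * w') := by ring
      have e6 : 2 * b * s = 2 * (b * s) := by ring
      have e7 : w' * s = s * w' := by ring
      omega
    exact Nat.le_of_mul_le_mul_right e4 (by omega)
  have P2 : ∀ s : ℕ, s ∈ S → ∃ v : ℕ, 2 ^ v ∣ L s ∧ L s ≤ (4 * w) ^ nd S s * 2 ^ v := by
    intro s
    induction s using Nat.strong_induction_on with
    | _ s ih =>
      intro hs
      by_cases h1 : s = 1
      · subst h1
        refine ⟨0, by simp, ?_⟩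
        rw [hL1, pow_zero, mul_one]
        exact Nat.one_le_pow _ _ (by omega)
      · obtain ⟨h2, h3, h4, h5, h6⟩ := hAB s hs h1
        obtain ⟨h7, h8⟩ := hAlt s hs h1
        obtain ⟨v1, e1, f1⟩ := ih _ h7 h2
        obtain ⟨v2, e2, f2⟩ := ih _ h8 h3
        have hpw : ∀ x y : ℕ, x ≤ y → (4 * w) ^ x ≤ (4 * w) ^ y := fun x y h =>
          Nat.pow_le_pow_right (by omega) h
        rcases hcase s hs h1 with ⟨hd1, hd2, hd3⟩ | ⟨hd1, hd2⟩ | ⟨hd1, hd2, hd3⟩
        · refine ⟨v1 + 1, ?_, ?_⟩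
          · rw [hLn s hs h1 hd2, ← hd1, ← two_mul, pow_succ']
            exact Nat.mul_dvd_mul_left 2 e1
          · rw [hLn s hs h1 hd2, ← hd1, pow_succ']
            have := Nat.mul_le_mul_right (2 ^ v1) (hpw _ _ (nd_mono S h7.le))
            calc L (A s) + L (A s) = 2 * L (A s) := by ring
              _ ≤ 2 * ((4 * w) ^ nd S s * 2 ^ v1) := by omega
              _ = (4 * w) ^ nd S s * (2 * 2 ^ v1) := by ring
        · refine ⟨v1, ?_, ?_⟩
          · rw [hLm s hs h1 hd2]; exact e1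
          · rw [hLm s hs h1 hd2]
            exact f1.trans (Nat.mul_le_mul_right _ (hpw _ _ (nd_mono S h7.le)))
        · have hs2 : 1 < s := by have := hpos s hs; omega
          have n1 := nd_succ S h7 hs hs2 hd1
          have n2 := nd_succ S h8 hs hs2 hd1
          have a1 := P1' _ h2
          have a2 := P1' _ h3
          have a3 := (P0 s hs).2
          rcases le_total v1 v2 with hv | hv
          · refine ⟨v1, ?_, ?_⟩
            · rw [hLn s hs h1 hd2]
              exact Nat.dvd_add e1 ((Nat.pow_dvd_pow 2 hv).trans e2)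
            · calc L s ≤ 4 * L (A s) := by omega
                _ ≤ 4 * ((4 * w) ^ nd S (A s) * 2 ^ v1) := by omega
                _ ≤ (4 * w) * ((4 * w) ^ nd S (A s) * 2 ^ v1) :=
                  Nat.mul_le_mul_right _ (by omega)
                _ = (4 * w) ^ (nd S (A s) + 1) * 2 ^ v1 := by ring
                _ ≤ (4 * w) ^ nd S s * 2 ^ v1 := Nat.mul_le_mul_right _ (hpw _ _ n1)
          · refine ⟨v2, ?_, ?_⟩
            · rw [hLn s hs h1 hd2]
              exact Nat.dvd_add ((Nat.pow_dvd_pow 2 hv).trans e1) e2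
            · have a4 : w * B s ≤ w * (2 * L (B s)) := Nat.mul_le_mul_left _ a2
              calc L s ≤ 2 * (w * (2 * L (B s))) := by omega
                _ = (4 * w) * L (B s) := by ring
                _ ≤ (4 * w) * ((4 * w) ^ nd S (B s) * 2 ^ v2) := Nat.mul_le_mul_left _ f2
                _ = (4 * w) ^ (nd S (B s) + 1) * 2 ^ v2 := by ring
                _ ≤ (4 * w) ^ nd S s * 2 ^ v2 := Nat.mul_le_mul_right _ (hpw _ _ n2)
  -- the leading part of `n`
  have hLnn : L n = N * 2 ^ e := by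
    obtain ⟨v, hv1, hv2⟩ := P2 n hnS
    have hZ : L n ≤ (4 * w) ^ b * 2 ^ v := hv2.trans
      (Nat.mul_le_mul_right _ (Nat.pow_le_pow_right (by omega) hnd))
    have hn2 : n ≤ 2 * ((4 * w) ^ b * 2 ^ v) := by
      have := P1' n hnS
      omega
    have hP1 : n * w' ≤ L n * w' + b * n :=
      (P1 n hnS).trans (Nat.add_le_add_left (Nat.mul_le_mul_right _ hnd) _)
    have hLle := (P0 n hnS).2
    have hme : m ≤ 2 ^ e := by
      have : m * 1 ≤ m * 2 ^ G := Nat.mul_le_mul_left _ Nat.one_le_two_pow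
      omega
    -- a common divisor `D`
    have main : ∀ D : ℕ, D ∣ L n → D ∣ N * 2 ^ e → m < D → b * n < w' * D →
        L n = N * 2 ^ e := by
      intro D hD1 hD2 hD3 hD4
      have h1 : n < L n + D := by
        have h2 : n * w' < (L n + D) * w' := by
          have e1 : (L n + D) * w' = L n * w' + w' * D := by ring
          omega
        exact Nat.lt_of_mul_lt_mul_right h2
      rw [eq_floor hD1 hLle h1, ← eq_floor hD2 (show N * 2 ^ e ≤ n by omega) (by omega)]
    have hwZ : 2 * b * (4 * w) ^ b < w' := by omega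
    rcases le_total e v with hev | hve
    · have h2 : n ≤ (N + 1) * 2 ^ e := by
        have : (N + 1) * 2 ^ e = N * 2 ^ e + 2 ^ e := by ring
        omega
      have h3 : b * n ≤ b * (N + 1) * 2 ^ e := by
        calc b * n ≤ b * ((N + 1) * 2 ^ e) := Nat.mul_le_mul_left _ h2
          _ = b * (N + 1) * 2 ^ e := by ring
      have h4 : b * (N + 1) * 2 ^ e < w' * 2 ^ e :=
        Nat.mul_lt_mul_of_pos_right (by omega) (by positivity)
      refine main (2 ^ e) ((Nat.pow_dvd_pow 2 hev).trans hv1) (Dvd.intro_left _ rfl) ?_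
        (lt_of_le_of_lt h3 h4)
      -- `m < 2 ^ e`
      have hG1 : 2 ≤ 2 ^ G := by
        have h5 : 1 ≤ (4 * win N b (b + 1)) ^ b :=
          Nat.one_le_pow _ _ (by have := one_le_win N b (b + 1); omega)
        omega
      have h6 : m * 2 ≤ m * 2 ^ G := Nat.mul_le_mul_left _ hG1
      omega
    · have h3 : b * n ≤ b * (2 * ((4 * w) ^ b * 2 ^ v)) := Nat.mul_le_mul_left _ hn2
      have h4 : 2 * b * (4 * w) ^ b * 2 ^ v < w' * 2 ^ v :=
        Nat.mul_lt_mul_of_pos_right hwZ (by positivity)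
      have h5 : b * (2 * ((4 * w) ^ b * 2 ^ v)) = 2 * b * (4 * w) ^ b * 2 ^ v := by ring
      refine main (2 ^ v) hv1 ((Nat.pow_dvd_pow 2 hve).trans (Dvd.intro_left _ rfl)) ?_
        (by omega)
      by_contra hcon
      push Not at hcon
      have h6 : 2 ^ v * 2 ^ G ≤ m * 2 ^ G := Nat.mul_le_mul_right _ hcon
      have h7 : 2 * (4 * w) ^ b < 2 ^ G := by
        have h8 : w ≤ win N b (b + 1) := win_mono N b (by omega)
        have h9 : (4 * w) ^ b ≤ (4 * win N b (b + 1)) ^ b :=
          Nat.pow_le_pow_left (by omega) b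
        omega
      have h10 : 2 ^ v * (2 * (4 * w) ^ b) < 2 ^ v * 2 ^ G :=
        Nat.mul_lt_mul_of_pos_left h7 (by positivity)
      have h11 : 2 ^ v * (2 * (4 * w) ^ b) = 2 * ((4 * w) ^ b * 2 ^ v) := by ring
      omega
  -- there is a merge
  have hex : ∃ s ∈ S, s ≠ 1 ∧ mg s := by
    by_contra hcon
    push Not at hcon
    have hall : ∀ s : ℕ, s ∈ S → L s = s := by
      intro s
      induction s using Nat.strong_induction_on with
      | _ s ih =>
        intro hs
        by_cases h1 : s = 1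
        · subst h1; exact hL1
        · obtain ⟨h2, h3, h4, h5, h6⟩ := hAB s hs h1
          obtain ⟨h7, h8⟩ := hAlt s hs h1
          rw [hLn s hs h1 (hcon s hs h1), ih _ h7 h2, ih _ h8 h3]
          exact h4.symm
    have := hall n hnS
    omega
  obtain ⟨s0, hs0, hs01, hs0m⟩ := hex
  refine ⟨S.image L, ⟨?_, ?_, ?_⟩, ?_, ?_⟩
  · intro h
    obtain ⟨s, hs, hs'⟩ := mem_image.1 h
    have := (P0 s hs).1
    omega
  · exact mem_image.2 ⟨1, hS.2.1, hL1⟩
  · have hall : ∀ s : ℕ, s ∈ S → L s ≠ 1 → ∃ x ∈ S.image L, ∃ y ∈ S.image L, L s = x + y := by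
      intro s
      induction s using Nat.strong_induction_on with
      | _ s ih =>
        intro hs hne
        by_cases h1 : s = 1
        · subst h1; exact absurd hL1 hne
        · obtain ⟨h2, h3, h4, h5, h6⟩ := hAB s hs h1
          obtain ⟨h7, h8⟩ := hAlt s hs h1
          by_cases hm : mg s
          · rw [hLm s hs h1 hm] at hne ⊢
            exact ih _ h7 h2 hne
          · exact ⟨L (A s), mem_image_of_mem L h2, L (B s), mem_image_of_mem L h3,
              hLn s hs h1 hm⟩
    intro x hx hx1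
    obtain ⟨s, hs, rfl⟩ := mem_image.1 hx
    exact hall s hs hx1
  · exact mem_image.2 ⟨n, hnS, hLnn⟩
  · apply Nat.succ_le_of_lt
    apply lt_of_le_of_ne card_image_le
    intro h
    have hinj := card_image_iff.1 h
    have h7 := (hAlt s0 hs0 hs01).1
    have := hinj (mem_coe.2 hs0) (mem_coe.2 (hAB s0 hs0 hs01).1) (hLm s0 hs0 hs01 hs0m)
    omega

/-- `LB N c`: every addition chain for `N * 2 ^ e` has length at least `e + c`, for all `e` -/
def LB (N c : ℕ) : Prop :=
  ∀ (e : ℕ) (S : Finset ℕ), IsChain S → N * 2 ^ e ∈ S → e + c + 1 ≤ S.card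

theorem LB_step {N c : ℕ} (hN : 1 ≤ N) (h : LB N c) :
    ∃ G : ℕ, ∀ g ≥ G, LB (N * 2 ^ g + 1) (g + c + 1) := by
  obtain ⟨G, hG⟩ := gap N c hN
  refine ⟨G, ?_⟩
  intro g hg e S hS hmem
  by_contra hcon
  push Not at hcon
  have h1 : (N * 2 ^ g + 1) * 2 ^ e = N * 2 ^ (g + e) + 2 ^ e := by
    rw [pow_add]; ring
  rw [h1] at hmem
  have h2 : 2 ^ e * 2 ^ G ≤ 2 ^ (g + e) := by
    rw [← pow_add]
    exact Nat.pow_le_pow_right (by norm_num) (by omega)
  obtain ⟨S', h3, h4, h5⟩ := hG (g + e) (2 ^ e) (by positivity) h2 S hS hmem (by omega)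
  have h6 := h (g + e) S' h3 h4
  omega

/-- a member that is not a power of two is at most `3 / 4` of `2 ^ length` -/
theorem three_quarters {S : Finset ℕ} (hS : IsChain S) : ∀ s : ℕ, s ∈ S →
    2 * s ≤ 2 ^ (S.filter (fun u => u ≤ s)).card ∧
    ((∃ k : ℕ, s = 2 ^ k) ∨ 8 * s ≤ 3 * 2 ^ (S.filter (fun u => u ≤ s)).card) := by
  obtain ⟨h0, h1, h2⟩ := hS
  have hpos : ∀ a ∈ S, 1 ≤ a := by
    intro a ha
    rcases Nat.eq_zero_or_pos a with rfl | h
    · exact absurd ha h0
    · exact h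
  have hlt : ∀ a s : ℕ, s ∈ S → a < s → (S.filter (fun u => u ≤ a)).card + 1 ≤
      (S.filter (fun u => u ≤ s)).card := by
    intro a s hs has
    apply Nat.succ_le_of_lt
    apply card_lt_card
    rw [ssubset_iff_of_subset]
    · exact ⟨s, mem_filter.2 ⟨hs, le_refl _⟩, fun h => by have := (mem_filter.1 h).2; omega⟩
    · intro u hu
      rw [mem_filter] at hu ⊢
      exact ⟨hu.1, by omega⟩
  intro s
  induction s using Nat.strong_induction_on with
  | _ s ih =>
    intro hs
    by_cases hs1 : s = 1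
    · subst hs1
      have : 1 ≤ (S.filter (fun u => u ≤ 1)).card :=
        card_pos.2 ⟨1, mem_filter.2 ⟨h1, le_refl _⟩⟩
      have h3 : 2 ^ 1 ≤ 2 ^ (S.filter (fun u => u ≤ 1)).card :=
        Nat.pow_le_pow_right (by norm_num) this
      exact ⟨by omega, Or.inl ⟨0, rfl⟩⟩
    · obtain ⟨a, ha, b, hb, hab⟩ := h2 s hs hs1
      have key : ∀ a b : ℕ, a ∈ S → b ∈ S → s = a + b → b ≤ a →
          2 * s ≤ 2 ^ (S.filter (fun u => u ≤ s)).card ∧
          ((∃ k : ℕ, s = 2 ^ k) ∨ 8 * s ≤ 3 * 2 ^ (S.filter (fun u => u ≤ s)).card) := by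
        intro a b ha hb hab hba
        have ha1 := hpos a ha
        have hb1 := hpos b hb
        have e1 := ih a (by omega) ha
        have e2 := ih b (by omega) hb
        have e3 := hlt a s hs (by omega)
        have e4 : 2 ^ ((S.filter (fun u => u ≤ a)).card + 1) ≤
            2 ^ (S.filter (fun u => u ≤ s)).card := Nat.pow_le_pow_right (by norm_num) e3
        rw [pow_succ] at e4
        rcases Nat.lt_or_ge b a with hlt' | hge
        · have e5 := hlt b a ha hlt'
          have e6 : 2 ^ ((S.filter (fun u => u ≤ b)).card + 1) ≤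
              2 ^ (S.filter (fun u => u ≤ a)).card := Nat.pow_le_pow_right (by norm_num) e5
          rw [pow_succ] at e6
          exact ⟨by omega, Or.inr (by omega)⟩
        · have hbe : b = a := by omega
          subst hbe
          refine ⟨by omega, ?_⟩
          rcases e1.2 with ⟨k, hk⟩ | h
          · exact Or.inl ⟨k + 1, by rw [pow_succ]; omega⟩
          · exact Or.inr (by omega)
      rcases le_total a b with h | h
      · exact key b a hb ha (by omega) h
      · exact key a b ha hb hab h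

theorem LB_seven : LB 7 4 := by
  intro e S hS hmem
  obtain ⟨-, h⟩ := three_quarters hS _ hmem
  have hc : (S.filter (fun u => u ≤ 7 * 2 ^ e)).card ≤ S.card := card_filter_le _ _
  rcases h with ⟨k, hk⟩ | h
  · exfalso
    have h7 : 7 ∣ 2 ^ k := ⟨2 ^ e, hk.symm⟩
    have := (Nat.Prime.dvd_of_dvd_pow (by norm_num) h7)
    omega
  · by_contra hcon
    push Not at hcon
    have h1 : 2 ^ (S.filter (fun u => u ≤ 7 * 2 ^ e)).card ≤ 2 ^ (e + 4) :=
      Nat.pow_le_pow_right (by norm_num) (by omega)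
    have h2 : 2 ^ (e + 4) = 16 * 2 ^ e := by rw [pow_add]; ring
    have h3 : 0 < 2 ^ e := by positivity
    omega

/-- the degrees of the theorem -/
theorem exists_degrees (M : ℕ) : ∃ g1 g2 g3 : ℕ, 2 ≤ g2 ∧ M ≤ g1 ∧ 1 ≤ g3 ∧
    LB (((7 * 2 ^ g1 + 1) * 2 ^ g2 + 1) * 2 ^ g3 + 1) (g1 + g2 + g3 + 7) := by
  obtain ⟨G1, h1⟩ := LB_step (by norm_num) LB_seven
  have e1 := h1 (max G1 M) (le_max_left _ _)
  obtain ⟨G2, h2⟩ := LB_step (by omega) e1
  have e2 := h2 (max G2 2) (le_max_left _ _)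
  obtain ⟨G3, h3⟩ := LB_step (by omega) e2
  have e3 := h3 (max G3 1) (le_max_left _ _)
  refine ⟨max G1 M, max G2 2, max G3 1, le_max_right _ _, le_max_right _ _, le_max_right _ _, ?_⟩
  have : max G3 1 + (max G2 2 + (max G1 M + 4 + 1) + 1) + 1 =
      max G1 M + max G2 2 + max G3 1 + 7 := by ring
  rw [this] at e3
  exact e3

end Pool.Agent.MP_cd9e74_lc.Gap
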