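import Pool.Agent.Lib.MP_cd9e74_lc.Gap
import Pool.Agent.Lib.MP_cd9e74_lc.Defs

/-!
# Straight-line programs with additions, subtractions and products

The identity `(A + p) * (A + q) - A * (A + p + q) = p * q` gives a program that saves one product
step.
-/

set_option autoImplicit false

open Polynomial

namespace Pool.Agent.MP_cd9e74_lc

/-- the values of a sequence in which every term but the first is a sum of two earlier ones -/
theorem isChain_image {a : ℕ → ℕ} {r : ℕ} (h0 : a 0 = 1)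
    (h : ∀ k, 1 ≤ k → k ≤ r → ∃ i j, i < k ∧ j < k ∧ a k = a i + a j) :
    Gap.IsChain ((Finset.range (r + 1)).image a) ∧
      ((Finset.range (r + 1)).image a).card ≤ r + 1 ∧
      a r ∈ (Finset.range (r + 1)).image a := by
  have hpos : ∀ k : ℕ, k ≤ r → 1 ≤ a k := by
    intro k
    induction k using Nat.strong_induction_on with
    | _ k ih =>
      intro hk
      rcases Nat.eq_zero_or_pos k with rfl | h1
      · omega
      · obtain ⟨i, j, hi, hj, hij⟩ := h k h1 hk
        have := ih i hi (by omega)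
        omega
  refine ⟨⟨?_, ?_, ?_⟩, ?_, ?_⟩
  · intro h'
    obtain ⟨k, hk, hk'⟩ := Finset.mem_image.1 h'
    have := hpos k (by have := Finset.mem_range.1 hk; omega)
    omega
  · exact Finset.mem_image.2 ⟨0, Finset.mem_range.2 (by omega), h0⟩
  · intro s hs hs1
    obtain ⟨k, hk, rfl⟩ := Finset.mem_image.1 hs
    have hk' := Finset.mem_range.1 hk
    have h1 : 1 ≤ k := by
      rcases Nat.eq_zero_or_pos k with rfl | h1
      · exact absurd h0 hs1
      · exact h1
    obtain ⟨i, j, hi, hj, hij⟩ := h k h1 (by omega)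
    exact ⟨a i, Finset.mem_image_of_mem a (Finset.mem_range.2 (by omega)), a j,
      Finset.mem_image_of_mem a (Finset.mem_range.2 (by omega)), hij⟩
  · exact Finset.card_image_le.trans (by rw [Finset.card_range])
  · exact Finset.mem_image_of_mem a (Finset.mem_range.2 (by omega))

theorem le_l2 {N c e : ℕ} (hN : 1 ≤ N) (h : Gap.LB N c) : e + c ≤ l2 (N * 2 ^ e) := by
  unfold l2
  apply le_csInf
  · refine ⟨N * 2 ^ e - 1, fun k => k + 1, ?_, ?_, ?_, ?_⟩
    · rfl
    · have : 1 * 1 ≤ N * 2 ^ e := Nat.mul_le_mul hN Nat.one_le_two_pow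
      dsimp only
      omega
    · intro k _
      dsimp only
      omega
    · intro k hk _
      exact ⟨k - 1, by omega, 0, by omega, by dsimp only; omega⟩
  · rintro r ⟨a, h0, hr, hlt, hsum⟩
    obtain ⟨h1, h2, h3⟩ := isChain_image (a := a) (r := r) h0 (by
      intro k hk1 hk2
      obtain ⟨i, hi, j, hj, hij⟩ := hsum k hk1 hk2
      exact ⟨i, j, hi, hj, hij⟩)
    rw [hr] at h3
    have := h e _ h1 h3
    omega

section build

variable {R : Type*} [CommRing R]

theorem prog_powers (n : ℕ) : ∃ L : List R[X], IsProgram L n ∧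
    ∀ i ≤ n, (X ^ (2 ^ i) : R[X]) ∈ L := by
  induction n with
  | zero =>
    refine ⟨[X, 1], IsProgram.start, ?_⟩
    intro i hi
    obtain rfl : i = 0 := by omega
    simp
  | succ n ih =>
    obtain ⟨L, hL, hmem⟩ := ih
    refine ⟨_, IsProgram.mul hL (hmem n le_rfl) (hmem n le_rfl), ?_⟩
    intro i hi
    rcases Nat.lt_or_ge n i with h | h
    · obtain rfl : i = n + 1 := by omega
      have : (X ^ (2 ^ (n + 1)) : R[X]) = X ^ (2 ^ n) * X ^ (2 ^ n) := by
        rw [← pow_add, pow_succ, mul_two]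
      rw [this]
      exact List.mem_cons_self
    · exact List.mem_cons_of_mem _ (hmem i h)

/-- five products and `E - F = p * q * B` -/
theorem prog_trick {L : List R[X]} {n : ℕ} (hL : IsProgram L n) {A p q : R[X]} (hA : A ∈ L)
    (hp : p ∈ L) (hq : q ∈ L) :
    ∃ L' : List R[X], IsProgram L' (n + 5) ∧
      (A * (A + p + q) * (A + p)) * ((A * (A + p + q)) * (A * (A + p + q))) ∈ L' ∧
      p * q * (A * (A + p + q)) ∈ L' := by
  have s1 := IsProgram.add hL hA hp
  have s2 := IsProgram.add s1 (List.mem_cons_self (a := A + p)) (List.mem_cons_of_mem _ hq)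
  have s3 := IsProgram.add s2 (show A ∈ _ by simp [hA]) (show q ∈ _ by simp [hq])
  -- B
  have s4 := IsProgram.mul s3 (show A ∈ _ by simp [hA]) (show A + p + q ∈ _ by simp)
  -- C
  have s5 := IsProgram.mul s4 (show A * (A + p + q) ∈ _ by simp) (show A + p ∈ _ by simp)
  -- E
  have s6 := IsProgram.mul s5 (show A * (A + p + q) * (A + p) ∈ _ by simp)
    (show A + q ∈ _ by simp)
  -- F
  have s7 := IsProgram.mul s6 (show A * (A + p + q) ∈ _ by simp)
    (show A * (A + p + q) ∈ _ by simp)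
  have s8 := IsProgram.sub s7 (show A * (A + p + q) * (A + p) * (A + q) ∈ _ by simp)
    (show (A * (A + p + q)) * (A * (A + p + q)) ∈ _ by simp)
  have s9 := IsProgram.mul s8 (show A * (A + p + q) * (A + p) ∈ _ by simp)
    (show (A * (A + p + q)) * (A * (A + p + q)) ∈ _ by simp)
  refine ⟨_, s9, List.mem_cons_self, List.mem_cons_of_mem _ ?_⟩
  have : p * q * (A * (A + p + q)) = A * (A + p + q) * (A + p) * (A + q) -
      (A * (A + p + q)) * (A * (A + p + q)) := by ring
  rw [this]
  exact List.mem_cons_self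

theorem prog_squares {L : List R[X]} {n : ℕ} (hL : IsProgram L n) {H G : R[X]} (hH : H ∈ L)
    (hG : G ∈ L) (j : ℕ) : ∃ L' : List R[X], IsProgram L' (n + j) ∧ H ^ (2 ^ j) ∈ L' ∧ G ∈ L' := by
  induction j with
  | zero => exact ⟨L, hL, by simpa using hH, hG⟩
  | succ j ih =>
    obtain ⟨L', h1, h2, h3⟩ := ih
    refine ⟨_, IsProgram.mul h1 h2 h2, ?_, List.mem_cons_of_mem _ h3⟩
    have : H ^ (2 ^ (j + 1)) = H ^ (2 ^ j) * H ^ (2 ^ j) := by
      rw [← pow_add, pow_succ, mul_two]
    rw [this]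
    exact List.mem_cons_self

theorem monic_add_low [Nontrivial R] {A r : R[X]} {n : ℕ} (hA : A.Monic) (hn : A.natDegree = n)
    (hr : r.degree < n) : (A + r).Monic ∧ (A + r).natDegree = n := by
  have h : r.degree < A.degree := by
    rw [Polynomial.degree_eq_natDegree hA.ne_zero, hn]
    exact hr
  exact ⟨hA.add_of_left h, by rw [Polynomial.natDegree_add_eq_left_of_degree_lt h, hn]⟩

/-- the program: degree `7 * 2 ^ (a + j) + 2 ^ (a + 1) + 2 ^ z + 2 ^ w` with `a + j + 6` products -/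
theorem prog_final (R : Type*) [CommRing R] [Nontrivial R] (a j z w : ℕ) (hz : z < a)
    (hw : w < a) :
    ∃ (L : List R[X]) (f : R[X]), IsProgram L (a + j + 6) ∧ f ∈ L ∧ f.Monic ∧
      f.natDegree = 7 * 2 ^ (a + j) + 2 ^ (a + 1) + 2 ^ z + 2 ^ w := by
  obtain ⟨L1, h1, h2⟩ := prog_powers (R := R) a
  obtain ⟨L2, h3, h4, h5⟩ := prog_trick h1 (h2 a le_rfl) (h2 z hz.le) (h2 w hw.le)
  obtain ⟨L3, h6, h7, h8⟩ := prog_squares h3 h4 h5 j
  have h9 := IsProgram.mul h6 h7 h8
  have h10 : a + 5 + j + 1 = a + j + 6 := by ring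
  rw [h10] at h9
  have hAm : (X ^ (2 ^ a) : R[X]).Monic := monic_X_pow _
  have hAd : (X ^ (2 ^ a) : R[X]).natDegree = 2 ^ a := natDegree_X_pow _
  have hz' : (2 : ℕ) ^ z < 2 ^ a := Nat.pow_lt_pow_right (by norm_num) hz
  have hw' : (2 : ℕ) ^ w < 2 ^ a := Nat.pow_lt_pow_right (by norm_num) hw
  have hpd : (X ^ (2 ^ z) : R[X]).degree < ((2 ^ a : ℕ) : WithBot ℕ) := by
    rw [degree_X_pow]; exact_mod_cast hz'
  have hqd : (X ^ (2 ^ w) : R[X]).degree < ((2 ^ a : ℕ) : WithBot ℕ) := by
    rw [degree_X_pow]; exact_mod_cast hw'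
  obtain ⟨m1, d1⟩ := monic_add_low hAm hAd hpd
  obtain ⟨m2, d2⟩ := monic_add_low m1 d1 hqd
  have m3 := hAm.mul m2
  have d3 : (X ^ (2 ^ a) * (X ^ (2 ^ a) + X ^ (2 ^ z) + X ^ (2 ^ w)) : R[X]).natDegree =
      2 ^ a + 2 ^ a := by
    rw [hAm.natDegree_mul m2, hAd, d2]
  have m4 := m3.mul m1
  have m5 := m3.mul m3
  have m6 := m4.mul m5
  have m7 := m6.pow (2 ^ j)
  have m8 := ((monic_X_pow (R := R) (2 ^ z)).mul (monic_X_pow (R := R) (2 ^ w))).mul m3
  refine ⟨_, _, h9, List.mem_cons_self, m7.mul m8, ?_⟩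
  rw [m7.natDegree_mul m8, m6.natDegree_pow, m4.natDegree_mul m5, m3.natDegree_mul m1,
    m3.natDegree_mul m3, d1, d3,
    ((monic_X_pow (R := R) (2 ^ z)).mul (monic_X_pow (R := R) (2 ^ w))).natDegree_mul m3, d3,
    (monic_X_pow (R := R) (2 ^ z)).natDegree_mul (monic_X_pow (R := R) (2 ^ w)),
    natDegree_X_pow, natDegree_X_pow]
  rw [pow_add, pow_succ]
  ring

end build

/-- the degrees of the theorem and their programs -/
theorem exists_saving (M : ℕ) : ∃ d c : ℕ, M < d ∧ Odd d ∧ Gap.LB d (c + 1) ∧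
    ∀ (h : ℕ) (R : Type*) [CommRing R] [Nontrivial R], ∃ (L : List R[X]) (f : R[X]),
      IsProgram L (h + c) ∧ f ∈ L ∧ f.Monic ∧ f.natDegree = d * 2 ^ h := by
  obtain ⟨g1, g2, g3, hg2, hg1, hg3, hLB⟩ := Gap.exists_degrees M
  refine ⟨((7 * 2 ^ g1 + 1) * 2 ^ g2 + 1) * 2 ^ g3 + 1, g1 + g2 + g3 + 6, ?_, ?_, hLB, ?_⟩
  · have h1 : M < 2 ^ g1 := lt_of_le_of_lt hg1 Nat.lt_two_pow_self
    have h2 : (7 * 2 ^ g1 + 1) * 1 ≤ (7 * 2 ^ g1 + 1) * 2 ^ g2 :=
      Nat.mul_le_mul_left _ Nat.one_le_two_pow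
    have h3 : ((7 * 2 ^ g1 + 1) * 2 ^ g2 + 1) * 1 ≤ ((7 * 2 ^ g1 + 1) * 2 ^ g2 + 1) * 2 ^ g3 :=
      Nat.mul_le_mul_left _ Nat.one_le_two_pow
    omega
  · obtain ⟨k, rfl⟩ : ∃ k, g3 = k + 1 := ⟨g3 - 1, by omega⟩
    refine ⟨((7 * 2 ^ g1 + 1) * 2 ^ g2 + 1) * 2 ^ k, ?_⟩
    rw [pow_succ]
    ring
  · intro h R _ _
    obtain ⟨L, f, h1, h2, h3, h4⟩ := prog_final R (g2 + g3 + h - 1) (g1 + 1) (g3 + h) h
      (by omega) (by omega)
    have e1 : g2 + g3 + h - 1 + (g1 + 1) + 6 = h + (g1 + g2 + g3 + 6) := by omega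
    rw [e1] at h1
    refine ⟨L, f, h1, h2, h3, ?_⟩
    rw [h4]
    have e2 : g2 + g3 + h - 1 + (g1 + 1) = g1 + (g2 + (g3 + h)) := by omega
    have e3 : g2 + g3 + h - 1 + 1 = g2 + (g3 + h) := by omega
    rw [e2, e3]
    simp only [pow_add]
    ring

/-! ### Programs as functions on the natural numbers -/

/-- a program with `m` steps, `p` of them products, given by functions -/
def Run (v : ℕ → ℤ[X]) (op : ℕ → Fin 3) (a b : ℕ → ℕ) (m p : ℕ) : Prop :=
  v 0 = 1 ∧ v 1 = X ∧
    (∀ k, k < m → a k < k + 2 ∧ b k < k + 2 ∧ (op k = 0 → v (k + 2) = v (a k) + v (b k)) ∧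
      (op k = 1 → v (k + 2) = v (a k) - v (b k)) ∧
      (op k = 2 → v (k + 2) = v (a k) * v (b k))) ∧
    ((Finset.range m).filter (fun k => op k = 2)).card = p

theorem Run.extend {v : ℕ → ℤ[X]} {op : ℕ → Fin 3} {a b : ℕ → ℕ} {m p : ℕ}
    (h : Run v op a b m p) {i j : ℕ} (hi : i < m + 2) (hj : j < m + 2) (o : Fin 3) (r : ℤ[X])
    (h0 : o = 0 → r = v i + v j) (h1 : o = 1 → r = v i - v j) (h2 : o = 2 → r = v i * v j) :
    Run (Function.update v (m + 2) r) (Function.update op m o) (Function.update a m i)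
      (Function.update b m j) (m + 1) (p + if o = 2 then 1 else 0) := by
  obtain ⟨g0, g1, g2, g3⟩ := h
  have hv : ∀ t, t < m + 2 → Function.update v (m + 2) r t = v t := by
    intro t ht
    exact Function.update_of_ne (by omega) _ _
  refine ⟨?_, ?_, ?_, ?_⟩
  · rw [hv 0 (by omega)]; exact g0
  · rw [hv 1 (by omega)]; exact g1
  · intro k hk
    rcases Nat.lt_or_ge k m with hkm | hkm
    · have ea : Function.update a m i k = a k := Function.update_of_ne (by omega) _ _
      have eb : Function.update b m j k = b k := Function.update_of_ne (by omega) _ _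
      have eo : Function.update op m o k = op k := Function.update_of_ne (by omega) _ _
      obtain ⟨f1, f2, f3, f4, f5⟩ := g2 k hkm
      rw [ea, eb, eo, hv (k + 2) (by omega), hv (a k) (by omega), hv (b k) (by omega)]
      exact ⟨f1, f2, f3, f4, f5⟩
    · obtain rfl : k = m := by omega
      rw [Function.update_self, Function.update_self, Function.update_self, Function.update_self,
        hv i hi, hv j hj]
      exact ⟨hi, hj, h0, h1, h2⟩
  · have e1 : (Finset.range (m + 1)).filter (fun k => Function.update op m o k = 2) =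
        if o = 2 then insert m ((Finset.range m).filter (fun k => op k = 2))
        else (Finset.range m).filter (fun k => op k = 2) := by
      ext k
      by_cases ho : o = 2
      · rw [if_pos ho]
        simp only [Finset.mem_filter, Finset.mem_range, Finset.mem_insert]
        by_cases hk : k = m
        · subst hk
          simp [ho]
        · rw [Function.update_of_ne hk]
          constructor
          · rintro ⟨q1, q2⟩
            exact Or.inr ⟨by omega, q2⟩
          · rintro (q | ⟨q1, q2⟩)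
            · exact absurd q hk
            · exact ⟨by omega, q2⟩
      · rw [if_neg ho]
        simp only [Finset.mem_filter, Finset.mem_range]
        by_cases hk : k = m
        · subst hk
          simp [ho]
        · rw [Function.update_of_ne hk]
          constructor
          · rintro ⟨q1, q2⟩
            exact ⟨by omega, q2⟩
          · rintro ⟨q1, q2⟩
            exact ⟨by omega, q2⟩
    rw [e1]
    by_cases ho : o = 2
    · rw [if_pos ho, if_pos ho, Finset.card_insert_of_notMem (by simp), g3]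
    · rw [if_neg ho, if_neg ho, g3, add_zero]

theorem IsProgram.toRun {L : List ℤ[X]} {p : ℕ} (h : IsProgram L p) :
    ∃ (v : ℕ → ℤ[X]) (op : ℕ → Fin 3) (a b : ℕ → ℕ) (m : ℕ), Run v op a b m p ∧
      ∀ f ∈ L, ∃ t, t < m + 2 ∧ v t = f := by
  have step : ∀ (v : ℕ → ℤ[X]) (op : ℕ → Fin 3) (a b : ℕ → ℕ) (m p : ℕ) (L : List ℤ[X])
      (f g r : ℤ[X]) (o : Fin 3), Run v op a b m p → (∀ f ∈ L, ∃ t, t < m + 2 ∧ v t = f) →
      f ∈ L → g ∈ L → (o = 0 → r = f + g) → (o = 1 → r = f - g) → (o = 2 → r = f * g) →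
      ∃ (v : ℕ → ℤ[X]) (op : ℕ → Fin 3) (a b : ℕ → ℕ) (m : ℕ),
        Run v op a b m (p + if o = 2 then 1 else 0) ∧
        ∀ f ∈ r :: L, ∃ t, t < m + 2 ∧ v t = f := by
    intro v op a b m p L f g r o hrun hmem hf hg h0 h1 h2
    obtain ⟨i, hi, rfl⟩ := hmem f hf
    obtain ⟨j, hj, rfl⟩ := hmem g hg
    refine ⟨_, _, _, _, _, hrun.extend hi hj o r h0 h1 h2, ?_⟩
    intro f hf
    rcases List.mem_cons.1 hf with rfl | hf
    · exact ⟨m + 2, by omega, Function.update_self _ _ _⟩
    · obtain ⟨t, ht, rfl⟩ := hmem f hf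
      exact ⟨t, by omega, Function.update_of_ne (by omega) _ _⟩
  induction h with
  | start =>
    refine ⟨fun k => if k = 0 then 1 else X, fun _ => 0, fun _ => 0, fun _ => 0, 0,
      ⟨by simp, by simp, by intro k hk; omega, by simp⟩, ?_⟩
    intro f hf
    rcases List.mem_cons.1 hf with rfl | hf
    · exact ⟨1, by omega, by simp⟩
    · rcases List.mem_cons.1 hf with rfl | hf
      · exact ⟨0, by omega, by simp⟩
      · exact absurd hf List.not_mem_nil
  | add h hf hg ih =>
    obtain ⟨v, op, a, b, m, hrun, hmem⟩ := ih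
    have := step v op a b m _ _ _ _ _ 0 hrun hmem hf hg (fun _ => rfl)
      (fun h => absurd h (by decide)) (fun h => absurd h (by decide))
    simpa using this
  | sub h hf hg ih =>
    obtain ⟨v, op, a, b, m, hrun, hmem⟩ := ih
    have := step v op a b m _ _ _ _ _ 1 hrun hmem hf hg (fun h => absurd h (by decide))
      (fun _ => rfl) (fun h => absurd h (by decide))
    simpa using this
  | mul h hf hg ih =>
    obtain ⟨v, op, a, b, m, hrun, hmem⟩ := ih
    have := step v op a b m _ _ _ _ _ 2 hrun hmem hf hg (fun h => absurd h (by decide))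
      (fun h => absurd h (by decide)) (fun _ => rfl)
    simpa using this

end Pool.Agent.MP_cd9e74_lc
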